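import Mathlib
import Pool.Agent.H108R4.PG.Fin

set_option autoImplicit false

open Filter Topology Set

/-! # The limit values of the exponent of the largest prime gap form a closed interval -/

namespace Pool.Agent.Results.MP_7b323f_nt.ExponentClusterSets

/-- `G x`: the largest gap that follows a prime not exceeding `x` -/
noncomputable def G (x : ℝ) : ℕ :=
  sSup {g : ℕ | ∃ n : ℕ, (Nat.nth Nat.Prime n : ℝ) ≤ x ∧
    g = Nat.nth Nat.Prime (n + 1) - Nat.nth Nat.Prime n}

/-- the exponent of Q1: `log G(x) / log log x` -/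
noncomputable def E₁ (x : ℝ) : EReal :=
  ((Real.log (G x) / Real.log (Real.log x) : ℝ) : EReal)

/-- the exponent of one gap: `log (p_{n+1} - p_n) / log log p_n` -/
noncomputable def V (n : ℕ) : EReal :=
  ((Real.log ((Nat.nth Nat.Prime (n + 1) : ℝ) - Nat.nth Nat.Prime n) /
    Real.log (Real.log (Nat.nth Nat.Prime n)) : ℝ) : EReal)

/-- the second exponent: `G(x) = log x · (log log x) ^ E₂(x)` -/
noncomputable def E₂ (x : ℝ) : EReal :=
  ((Real.log ((G x : ℝ) / Real.log x) / Real.log (Real.log (Real.log x)) : ℝ) : EReal)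

theorem result :
    -- `G x` is the greatest of the gaps that follow a prime `≤ x`
    (∀ x : ℝ, 2 ≤ x → IsGreatest {g : ℕ | ∃ n : ℕ, (Nat.nth Nat.Prime n : ℝ) ≤ x ∧
      g = Nat.nth Nat.Prime (n + 1) - Nat.nth Nat.Prime n} (G x)) ∧
    -- the limit values of the exponent form the closed interval `[liminf, limsup]`
    ({y | MapClusterPt y atTop E₁} = Icc (liminf E₁ atTop) (limsup E₁ atTop) ∧
      1 ≤ liminf E₁ atTop ∧ limsup E₁ atTop = limsup V atTop) ∧
    -- the same limit values, and the same limit, are seen along sparse sequences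
    (∀ x : ℕ → ℝ, Monotone x → Tendsto x atTop atTop →
      Tendsto (fun j => Real.log (Real.log (x (j + 1))) / Real.log (Real.log (x j)))
        atTop (𝓝 1) →
      {y | MapClusterPt y atTop (fun j => E₁ (x j))} =
        Icc (liminf E₁ atTop) (limsup E₁ atTop) ∧
      ∀ L : EReal, Tendsto (fun j => E₁ (x j)) atTop (𝓝 L) ↔ Tendsto E₁ atTop (𝓝 L)) ∧
    -- the second exponent
    ({y | MapClusterPt y atTop E₂} = Icc (liminf E₂ atTop) (limsup E₂ atTop) ∧
      2 ≤ liminf E₂ atTop) ∧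
    (∀ x : ℕ → ℝ, Monotone x → Tendsto x atTop atTop →
      Tendsto (fun j => (Real.log (Real.log (x (j + 1))) - Real.log (Real.log (x j))) /
        Real.log (Real.log (Real.log (x j)))) atTop (𝓝 0) →
      {y | MapClusterPt y atTop (fun j => E₂ (x j))} =
        Icc (liminf E₂ atTop) (limsup E₂ atTop) ∧
      ∀ L : EReal, Tendsto (fun j => E₂ (x j)) atTop (𝓝 L) ↔ Tendsto E₂ atTop (𝓝 L)) := by
  refine ⟨?_, ⟨H108R4.PG.E1_cont, H108R4.PG.E1_lower, H108R4.PG.E1_limsup⟩, ?_,
    ⟨H108R4.PG.E2_cont, H108R4.PG.E2_lower⟩, ?_⟩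
  · intro x hx
    have hne : (H108R4.PG.gaps x).Nonempty := by
      refine ⟨_, 0, ?_, rfl⟩
      rw [Nat.nth_prime_zero_eq_two]
      exact_mod_cast hx
    exact ⟨Nat.sSup_mem hne (H108R4.PG.gaps_finite x).bddAbove,
      fun g hg => le_csSup (H108R4.PG.gaps_finite x).bddAbove hg⟩
  · intro x h1 h2 h3
    obtain ⟨h4, h5⟩ := H108R4.PG.E1_seq x h1 h2 h3
    exact ⟨h4, fun L => ⟨h5 L, fun h => h.comp h2⟩⟩
  · intro x h1 h2 h3
    obtain ⟨h4, h5⟩ := H108R4.PG.E2_seq x h1 h2 h3
    exact ⟨h4, fun L => ⟨h5 L, fun h => h.comp h2⟩⟩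

end Pool.Agent.Results.MP_7b323f_nt.ExponentClusterSets
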